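import Mathlib

/-!
# Equicontinuity does not propagate from the Hartogs figure

The maps `f_k (z, w) = [z_1 - c : w : 1 / (k + 1) : 0 : … : 0]` of the polydisk into the projective
space converge locally uniformly, outside the set `z_1 = c, w = 0` of codimension two, to the map
`[z_1 - c : w : 0 : …]`, which is indeterminate there.  For `1 - r < c < 1` that set does not meet the
Hartogs figure.
-/

set_option autoImplicit false

open Metric Set
open scoped LinearAlgebra.Projectivization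

namespace Pool.Agent.Results.MP_7ec995_an.BubblingFamily

/-- The Hermitian space `ℂ^(m+1)`, whose lines are the points of the projective space `P^m`. -/
abbrev V (m : ℕ) : Type := EuclideanSpace ℂ (Fin (m + 1))

/-- The distance of the Fubini–Study metric (a Kähler metric) of `P^m`: the angle
`arccos (|⟨u, v⟩| / (‖u‖ ‖v‖))` between the complex lines spanned by `u` and `v`. -/
noncomputable def fsDist {m : ℕ} (p q : ℙ ℂ (V m)) : ℝ :=
  Real.arccos (‖(inner ℂ p.rep q.rep : ℂ)‖ / (‖p.rep‖ * ‖q.rep‖))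

/-- The unit polydisk `Δ^(n+1)` in `ℂ^(n+1) = ℂⁿ × ℂ` (the norm is the maximum norm). -/
def polydisk (n : ℕ) : Set ((Fin n → ℂ) × ℂ) := ball 0 1

/-- The Hartogs figure `H_n^1(r) = [Δⁿ(1-r) × Δ¹] ∪ [Δⁿ × A¹(r,1)]` in `ℂⁿ × ℂ`. -/
def hartogs (n : ℕ) (r : ℝ) : Set ((Fin n → ℂ) × ℂ) :=
  (ball 0 (1 - r) ×ˢ ball 0 1) ∪ (ball 0 1 ×ˢ {w : ℂ | r < ‖w‖ ∧ ‖w‖ < 1})

/-- `f` is a holomorphic map of the open set `U` into `P^m`: near every point of `U` it is
`z ↦ [F z]` with a holomorphic map `F` without zeros into `ℂ^(m+1)`. -/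
def IsHolomorphicMap {n m : ℕ} (U : Set ((Fin n → ℂ) × ℂ)) (f : (Fin n → ℂ) × ℂ → ℙ ℂ (V m)) :
    Prop :=
  ∀ x ∈ U, ∃ W : Set ((Fin n → ℂ) × ℂ), IsOpen W ∧ x ∈ W ∧ ∃ F : (Fin n → ℂ) × ℂ → V m,
    DifferentiableOn ℂ F W ∧ ∀ y ∈ W ∩ U, ∃ h : F y ≠ 0, f y = Projectivization.mk ℂ (F y) h

/-- The family `(f_k)` of maps of `Δ^(n+1)` into `P^m` is equicontinuous at the point `p` relative
to the set `U`: for every `ε > 0` there is `δ > 0` such that `d (f_k z, f_k p) < ε` for all `k`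
and all `z ∈ U` with `|z - p| < δ`. -/
def EquicontinuousAtOn {n m : ℕ} (f : ℕ → (Fin n → ℂ) × ℂ → ℙ ℂ (V m))
    (U : Set ((Fin n → ℂ) × ℂ)) (p : (Fin n → ℂ) × ℂ) : Prop :=
  ∀ ε : ℝ, 0 < ε → ∃ δ : ℝ, 0 < δ ∧ ∀ (k : ℕ), ∀ z ∈ U, ‖z - p‖ < δ → fsDist (f k z) (f k p) < ε

/-- The angle between two vectors. -/
noncomputable def ang {m : ℕ} (u v : V m) : ℝ := Real.arccos (‖(inner ℂ u v : ℂ)‖ / (‖u‖ * ‖v‖))

theorem fsDist_mk {m : ℕ} (u v : V m) (hu : u ≠ 0) (hv : v ≠ 0) :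
    fsDist (Projectivization.mk ℂ u hu) (Projectivization.mk ℂ v hv) = ang u v := by
  obtain ⟨a, ha⟩ := Projectivization.exists_smul_eq_mk_rep ℂ u hu
  obtain ⟨b, hb⟩ := Projectivization.exists_smul_eq_mk_rep ℂ v hv
  unfold fsDist ang
  rw [← ha, ← hb]
  have h1 : ((a : ℂˣ) • u : V m) = (a : ℂ) • u := rfl
  have h2 : ((b : ℂˣ) • v : V m) = (b : ℂ) • v := rfl
  rw [h1, h2, inner_smul_left, inner_smul_right, norm_smul, norm_smul, norm_mul, norm_mul]
  have ha' : (0 : ℝ) < ‖(a : ℂ)‖ := norm_pos_iff.2 a.ne_zero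
  have hb' : (0 : ℝ) < ‖(b : ℂ)‖ := norm_pos_iff.2 b.ne_zero
  have hu' : (0 : ℝ) < ‖u‖ := norm_pos_iff.2 hu
  have hv' : (0 : ℝ) < ‖v‖ := norm_pos_iff.2 hv
  congr 1
  rw [RCLike.norm_conj]
  field_simp

/-- If `v` has norm at least `c` and `u` is `δ`-close to `v`, then the cosine of the angle is at least
`1 - 2 δ / c`. -/
theorem cos_ge {m : ℕ} {u v : V m} {c δ : ℝ} (hc : 0 < c) (hv : c ≤ ‖v‖) (hu : c ≤ ‖u‖)
    (h : ‖u - v‖ ≤ δ) : 1 - 2 * δ / c ≤ ‖(inner ℂ u v : ℂ)‖ / (‖u‖ * ‖v‖) := by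
  have hv0 : 0 < ‖v‖ := hc.trans_le hv
  have hu0 : 0 < ‖u‖ := hc.trans_le hu
  have hδ : 0 ≤ δ := (norm_nonneg _).trans h
  have h1 : ‖v‖ ^ 2 - ‖u - v‖ * ‖v‖ ≤ ‖(inner ℂ u v : ℂ)‖ := by
    have e1 : (inner ℂ u v : ℂ) = inner ℂ v v + inner ℂ (u - v) v := by
      rw [← inner_add_left]; congr 1; abel
    have e2 : ‖(inner ℂ v v : ℂ)‖ = ‖v‖ ^ 2 := by
      rw [inner_self_eq_norm_sq_to_K]
      simp
    have e3 : ‖(inner ℂ (u - v) v : ℂ)‖ ≤ ‖u - v‖ * ‖v‖ := norm_inner_le_norm _ _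
    have e4 := norm_sub_norm_le (inner ℂ v v : ℂ) (-(inner ℂ (u - v) v : ℂ))
    rw [norm_neg, sub_neg_eq_add, ← e1] at e4
    linarith
  have h2 : ‖u‖ ≤ ‖v‖ + δ := by
    have := norm_sub_norm_le u v
    linarith
  rw [le_div_iff₀ (by positivity)]
  have h3 : (1 - 2 * δ / c) * (‖u‖ * ‖v‖) ≤ (‖v‖ - δ) * ‖v‖ := by
    have : (1 - 2 * δ / c) * ‖u‖ ≤ ‖v‖ - δ := by
      have e5 : 2 * δ / c * ‖u‖ ≥ 2 * δ := by
        rw [ge_iff_le, div_mul_eq_mul_div, le_div_iff₀ hc]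
        exact mul_le_mul_of_nonneg_left hu (by positivity)
      nlinarith
    calc (1 - 2 * δ / c) * (‖u‖ * ‖v‖) = ((1 - 2 * δ / c) * ‖u‖) * ‖v‖ := by ring
      _ ≤ _ := mul_le_mul_of_nonneg_right this hv0.le
  have h4 : (‖v‖ - δ) * ‖v‖ ≤ ‖v‖ ^ 2 - ‖u - v‖ * ‖v‖ := by
    have := mul_le_mul_of_nonneg_right h hv0.le
    nlinarith
  linarith

section construct

variable {n m : ℕ}

/-- The homogeneous coordinates `(z_1 - c, w, 1 / (k + 1), 0, …, 0)`. -/
noncomputable def lift (hn : 0 < n) (hm : 2 ≤ m) (c : ℝ) (k : ℕ) (x : (Fin n → ℂ) × ℂ) : V m :=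
  (x.1 ⟨0, hn⟩ - c) • EuclideanSpace.single (⟨0, by omega⟩ : Fin (m + 1)) (1 : ℂ) +
    x.2 • EuclideanSpace.single (⟨1, by omega⟩ : Fin (m + 1)) (1 : ℂ) +
    ((1 / ((k : ℝ) + 1) : ℝ) : ℂ) • EuclideanSpace.single (⟨2, by omega⟩ : Fin (m + 1)) (1 : ℂ)

theorem lift_zero (hn : 0 < n) (hm : 2 ≤ m) (c : ℝ) (k : ℕ) (x : (Fin n → ℂ) × ℂ) :
    lift hn hm c k x ⟨0, by omega⟩ = x.1 ⟨0, hn⟩ - c := by
  simp [lift]

theorem lift_one (hn : 0 < n) (hm : 2 ≤ m) (c : ℝ) (k : ℕ) (x : (Fin n → ℂ) × ℂ) :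
    lift hn hm c k x ⟨1, by omega⟩ = x.2 := by
  simp [lift]

theorem lift_two (hn : 0 < n) (hm : 2 ≤ m) (c : ℝ) (k : ℕ) (x : (Fin n → ℂ) × ℂ) :
    lift hn hm c k x ⟨2, by omega⟩ = ((1 / ((k : ℝ) + 1) : ℝ) : ℂ) := by
  simp [lift]

theorem lift_ne (hn : 0 < n) (hm : 2 ≤ m) (c : ℝ) (k : ℕ) (x : (Fin n → ℂ) × ℂ) :
    lift hn hm c k x ≠ 0 := by
  intro h
  have h1 := lift_two hn hm c k x
  rw [h] at h1
  have h2 : (0 : ℝ) < 1 / ((k : ℝ) + 1) := by positivity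
  have h3 : ((1 / ((k : ℝ) + 1) : ℝ) : ℂ) = 0 := h1.symm
  rw [Complex.ofReal_eq_zero] at h3
  exact h2.ne' h3

theorem lift_sub (hn : 0 < n) (hm : 2 ≤ m) (c : ℝ) (k : ℕ) (x y : (Fin n → ℂ) × ℂ) :
    ‖lift hn hm c k x - lift hn hm c k y‖ ≤ 2 * ‖x - y‖ := by
  have e : lift hn hm c k x - lift hn hm c k y =
      (x.1 ⟨0, hn⟩ - y.1 ⟨0, hn⟩) • EuclideanSpace.single (⟨0, by omega⟩ : Fin (m + 1)) (1 : ℂ) +
      (x.2 - y.2) • EuclideanSpace.single (⟨1, by omega⟩ : Fin (m + 1)) (1 : ℂ) := by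
    unfold lift
    module
  rw [e]
  have h1 : ‖x.1 ⟨0, hn⟩ - y.1 ⟨0, hn⟩‖ ≤ ‖x - y‖ :=
    (norm_le_pi_norm (x.1 - y.1) ⟨0, hn⟩).trans (norm_fst_le (x - y))
  have h2 : ‖x.2 - y.2‖ ≤ ‖x - y‖ := norm_snd_le (x - y)
  refine (norm_add_le _ _).trans ?_
  rw [norm_smul, norm_smul]
  simp only [PiLp.norm_single, norm_one, mul_one]
  linarith

theorem lift_ge (hn : 0 < n) (hm : 2 ≤ m) {r : ℝ} (hr : 0 < r) (k : ℕ) {x : (Fin n → ℂ) × ℂ}
    (hx : x ∈ hartogs n r) : r / 2 ≤ ‖lift hn hm (1 - r / 2) k x‖ := by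
  rcases hx with ⟨h1, -⟩ | ⟨-, h1, -⟩
  · rw [mem_ball_zero_iff] at h1
    have h2 : ‖x.1 ⟨0, hn⟩‖ ≤ ‖x.1‖ := norm_le_pi_norm x.1 ⟨0, hn⟩
    have h3 := PiLp.norm_apply_le (lift hn hm (1 - r / 2) k x) ⟨0, by omega⟩
    rw [lift_zero] at h3
    have h4 : ‖(((1 - r / 2 : ℝ)) : ℂ)‖ - ‖x.1 ⟨0, hn⟩‖ ≤
        ‖x.1 ⟨0, hn⟩ - ((1 - r / 2 : ℝ) : ℂ)‖ := by
      rw [norm_sub_rev]; exact norm_sub_norm_le _ _
    rw [Complex.norm_real] at h4
    have h5 : (1 - r / 2) ≤ ‖(1 - r / 2 : ℝ)‖ := Real.le_norm_self _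
    linarith
  · have h3 := PiLp.norm_apply_le (lift hn hm (1 - r / 2) k x) ⟨1, by omega⟩
    rw [lift_one] at h3
    linarith

/-- The maps of the family. -/
noncomputable def fam (hn : 0 < n) (hm : 2 ≤ m) (c : ℝ) (k : ℕ) (x : (Fin n → ℂ) × ℂ) :
    ℙ ℂ (V m) :=
  Projectivization.mk ℂ (lift hn hm c k x) (lift_ne hn hm c k x)

end construct

/-- **Equicontinuity of families of holomorphic maps into a compact Kähler manifold does not propagate
from the Hartogs figure to the polydisk.**  For every `n ≥ 1`, every `0 < r < 1` and every `m ≥ 2`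
there is a sequence of holomorphic maps `f_k : Δ^(n+1) → P^m` which is equicontinuous (for the
Fubini–Study distance) at every point of the Hartogs figure `H_n^1(r)`, but not at some point of
`Δ^(n+1)`. -/
theorem result : ∀ n : ℕ, 1 ≤ n → ∀ r : ℝ, 0 < r → r < 1 → ∀ m : ℕ, 2 ≤ m →
    ∃ f : ℕ → (Fin n → ℂ) × ℂ → ℙ ℂ (V m),
      (∀ k, IsHolomorphicMap (polydisk n) (f k)) ∧
      (∀ p ∈ hartogs n r, EquicontinuousAtOn f (hartogs n r) p) ∧
      ∃ p ∈ polydisk n, ¬ EquicontinuousAtOn f (polydisk n) p := by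
  intro n hn r hr hr1 m hm
  have hn' : 0 < n := hn
  refine ⟨fam hn' hm (1 - r / 2), ?_, ?_, ?_⟩
  · intro k x _
    refine ⟨univ, isOpen_univ, mem_univ _, lift hn' hm (1 - r / 2) k, ?_, ?_⟩
    · unfold lift
      have h1 : Differentiable ℂ (fun x : (Fin n → ℂ) × ℂ => x.1 ⟨0, hn'⟩) := by fun_prop
      fun_prop
    · intro y _
      exact ⟨lift_ne _ _ _ _ _, rfl⟩
  · intro p hp ε hε
    have hc : 0 < r / 2 := by linarith
    -- continuity of `arccos` at `1`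
    have hcont : ContinuousAt Real.arccos 1 := Real.continuous_arccos.continuousAt
    rw [Metric.continuousAt_iff] at hcont
    obtain ⟨η, hη, H⟩ := hcont ε hε
    refine ⟨η * (r / 2) / 8, by positivity, fun k z hz hzp => ?_⟩
    have h1 : ‖lift hn' hm (1 - r / 2) k z - lift hn' hm (1 - r / 2) k p‖ ≤ 2 * (η * (r / 2) / 8) :=
      (lift_sub _ _ _ _ _ _).trans (by linarith)
    have h2 := cos_ge hc (lift_ge hn' hm hr k hp) (lift_ge hn' hm hr k hz) h1
    have h3 : 2 * (2 * (η * (r / 2) / 8)) / (r / 2) = η / 2 := by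
      field_simp; ring
    rw [h3] at h2
    have h4 : ‖(inner ℂ (lift hn' hm (1 - r / 2) k z) (lift hn' hm (1 - r / 2) k p) : ℂ)‖ /
        (‖lift hn' hm (1 - r / 2) k z‖ * ‖lift hn' hm (1 - r / 2) k p‖) ≤ 1 :=
      div_le_one_of_le₀ (norm_inner_le_norm _ _) (by positivity)
    have h5 := @H (‖(inner ℂ (lift hn' hm (1 - r / 2) k z) (lift hn' hm (1 - r / 2) k p) : ℂ)‖ /
        (‖lift hn' hm (1 - r / 2) k z‖ * ‖lift hn' hm (1 - r / 2) k p‖)) (by
      rw [Real.dist_eq, abs_lt]; constructor <;> linarith)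
    rw [Real.arccos_one, Real.dist_eq, sub_zero] at h5
    have h6 : fsDist (fam hn' hm (1 - r / 2) k z) (fam hn' hm (1 - r / 2) k p) =
        ang (lift hn' hm (1 - r / 2) k z) (lift hn' hm (1 - r / 2) k p) := fsDist_mk _ _ _ _
    rw [h6]
    exact lt_of_abs_lt h5
  · set p : (Fin n → ℂ) × ℂ := (fun _ => ((1 - r / 2 : ℝ) : ℂ), 0) with hp
    have hp1 : ‖p.1‖ ≤ 1 - r / 2 := by
      rw [pi_norm_le_iff_of_nonneg (by linarith)]
      intro i
      simp only [hp, Complex.norm_real, Real.norm_eq_abs]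
      rw [abs_of_nonneg (by linarith)]
    refine ⟨p, ?_, ?_⟩
    · rw [polydisk, mem_ball_zero_iff, Prod.norm_def, max_lt_iff]
      constructor
      · linarith
      · simp [hp]
    · intro H
      obtain ⟨δ, hδ, H⟩ := H 1 one_pos
      set t : ℝ := min (δ / 2) (1 / 2) with ht
      have ht0 : 0 < t := by rw [ht]; positivity
      have ht1 : t ≤ 1 / 2 := min_le_right _ _
      have htδ : t < δ := (min_le_left _ _).trans_lt (by linarith)
      obtain ⟨k, hk⟩ := exists_nat_gt (2 / t)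
      set z : (Fin n → ℂ) × ℂ := (fun _ => ((1 - r / 2 : ℝ) : ℂ), (t : ℂ)) with hz
      have hzp : z - p = (0, (t : ℂ)) := by
        simp [hz, hp]
      have hzn : ‖z - p‖ = t := by
        rw [hzp, Prod.norm_def]
        simp only [norm_zero, Complex.norm_real, Real.norm_eq_abs, abs_of_pos ht0]
        exact max_eq_right ht0.le
      have hzU : z ∈ polydisk n := by
        rw [polydisk, mem_ball_zero_iff, Prod.norm_def, max_lt_iff]
        constructor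
        · have : ‖z.1‖ ≤ 1 - r / 2 := hp1
          linarith
        · simp only [hz, Complex.norm_real, Real.norm_eq_abs, abs_of_pos ht0]
          linarith
      have h1 := H k z hzU (by rw [hzn]; exact htδ)
      have h2 : fsDist (fam hn' hm (1 - r / 2) k z) (fam hn' hm (1 - r / 2) k p) =
          ang (lift hn' hm (1 - r / 2) k z) (lift hn' hm (1 - r / 2) k p) := fsDist_mk _ _ _ _
      rw [h2] at h1
      set s : ℝ := 1 / ((k : ℝ) + 1) with hs
      have hs0 : 0 < s := by rw [hs]; positivity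
      have hlp : lift hn' hm (1 - r / 2) k p =
          (s : ℂ) • EuclideanSpace.single (⟨2, by omega⟩ : Fin (m + 1)) (1 : ℂ) := by
        unfold lift
        simp [hp, hs]
      have hlz : lift hn' hm (1 - r / 2) k z =
          (t : ℂ) • EuclideanSpace.single (⟨1, by omega⟩ : Fin (m + 1)) (1 : ℂ) +
          (s : ℂ) • EuclideanSpace.single (⟨2, by omega⟩ : Fin (m + 1)) (1 : ℂ) := by
        unfold lift
        simp [hz, hs]
      have hnp : ‖lift hn' hm (1 - r / 2) k p‖ = s := by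
        rw [hlp, norm_smul, PiLp.norm_single, norm_one, mul_one, Complex.norm_real,
          Real.norm_eq_abs, abs_of_pos hs0]
      have hnz : t ≤ ‖lift hn' hm (1 - r / 2) k z‖ := by
        have h3 := PiLp.norm_apply_le (lift hn' hm (1 - r / 2) k z) ⟨1, by omega⟩
        rw [lift_one] at h3
        simpa [hz, abs_of_pos ht0] using h3
      have hin : ‖(inner ℂ (lift hn' hm (1 - r / 2) k z) (lift hn' hm (1 - r / 2) k p) : ℂ)‖ =
          s ^ 2 := by
        rw [hlp, inner_smul_right, EuclideanSpace.inner_single_right, lift_two, ← hs, one_mul,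
          norm_mul, RCLike.norm_conj, Complex.norm_real, Real.norm_eq_abs, abs_of_pos hs0]
        ring
      have h7 : ‖(inner ℂ (lift hn' hm (1 - r / 2) k z) (lift hn' hm (1 - r / 2) k p) : ℂ)‖ /
          (‖lift hn' hm (1 - r / 2) k z‖ * ‖lift hn' hm (1 - r / 2) k p‖) ≤ 1 / 2 := by
        have hnz0 : 0 < ‖lift hn' hm (1 - r / 2) k z‖ := ht0.trans_le hnz
        rw [hin, hnp, div_le_iff₀ (by positivity)]
        have h8 : s ≤ t / 2 := by
          rw [hs, div_le_iff₀ (by positivity)]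
          rw [div_lt_iff₀ ht0] at hk
          nlinarith
        nlinarith
      have h9 : Real.arccos (1 / 2) ≤ ang (lift hn' hm (1 - r / 2) k z)
          (lift hn' hm (1 - r / 2) k p) := Real.antitone_arccos h7
      have h10 : Real.arccos (1 / 2) = Real.pi / 3 := by
        rw [← Real.cos_pi_div_three, Real.arccos_cos (by positivity) (by linarith [Real.pi_pos])]
      rw [h10] at h9
      have := Real.pi_gt_three
      linarith

end Pool.Agent.Results.MP_7ec995_an.BubblingFamily
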